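import Mathlib
import Pool.Agent.X110.Pol4

/-!
# MP_efb919_an, Q2: the polarization constants of fat Cantor sets

For every compact set `K` of positive Lebesgue measure on the line, in particular for every fat Cantor
set, and every `s > 1` the normalised polarization constants `pol_s(K; N) / N^s` converge to
`2 (2^s - 1) ζ(s) λ(K)^(-s)`.

Upper bound (for every `N`). The map `φ(t) = λ(K ∩ (-∞, t])` is a contraction of `K` onto `[0, λ(K)]`, so
that the constant of `K` is at most the constant of the interval `[0, λ(K)]`. For the interval the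
configuration is made periodic; solving a discrete Poisson equation on the cycle one finds a gap of the
configuration around which the partial sums of the distances dominate those of the equally spaced
configuration, and one compares the potentials by Abel summation and convexity.

Lower bound. Take the points `x_j ∈ K` with `φ(x_j) = (j + 1/2) λ(K) / n`, `j < n`, and `o(n)` more points in
the mesh cells of length `(T + 1) λ(K) / n` which meet `K` and near which `K` has gaps of total length more
than `η λ(K) / n`; their number is `o(n)`, since the measure of the neighbourhoods of `K` tends to `λ(K)`.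
-/

set_option autoImplicit false

namespace Pool.Agent.Results.MP_efb919_an.PolarizationLimit

open Filter Topology MeasureTheory
open scoped ENNReal

/-- The `N`-th polarization constant `pol_s(K; N) = sup_{x ∈ K^N} inf_{y ∈ K} ∑_j |y - x_j|^(-s)`, a number
in `[0, ∞]`; a term with `y = x_j` is `∞`. -/
noncomputable def pol (K : Set ℝ) (s : ℝ) (N : ℕ) : ℝ≥0∞ :=
  ⨆ (x : Fin N → ℝ) (_ : ∀ i, x i ∈ K), ⨅ y ∈ K, ∑ j, (ENNReal.ofReal |y - x j|) ^ (-s)

lemma zeta_re {s : ℝ} (hs : 1 < s) :
    (riemannZeta (s : ℂ)).re = ∑' n : ℕ, 1 / ((n : ℝ) + 1) ^ s := by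
  rw [zeta_eq_tsum_one_div_nat_add_one_cpow (by simpa using hs)]
  have : ∀ n : ℕ, (1 : ℂ) / ((n : ℂ) + 1) ^ (s : ℂ) = ((1 / ((n : ℝ) + 1) ^ s : ℝ) : ℂ) := by
    intro n
    have h0 : (0 : ℝ) ≤ (n : ℝ) + 1 := by positivity
    rw [Complex.ofReal_div, Complex.ofReal_one, Complex.ofReal_cpow h0]
    push_cast
    rfl
  rw [tsum_congr this, ← Complex.ofReal_tsum, Complex.ofReal_re]

/-- **Q2.** Let `K` be a compact set of real numbers with positive Lebesgue measure (for instance a fat
Cantor set) and `s > 1`. Then `pol_s(K; N) / N^s → 2 (2^s - 1) ζ(s) λ(K)^(-s)` as `N → ∞`. -/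
theorem result (K : Set ℝ) (hK : IsCompact K) (hpos : 0 < volume K) (s : ℝ) (hs : 1 < s) :
    Tendsto (fun N : ℕ => pol K s N / ((N : ℝ≥0∞) ^ s)) atTop
      (𝓝 (ENNReal.ofReal (2 * (2 ^ s - 1) * (riemannZeta (s : ℂ)).re * (volume.real K) ^ (-s)))) := by
  have hL : 0 < volume.real K := ENNReal.toReal_pos hpos.ne' hK.measure_lt_top.ne
  have h := Pool.Agent.X110.Pol.pol_tendsto hK hL (s := s) (by linarith)
  rw [Pool.Agent.X110.Pol.cst_eq hs, ← zeta_re hs, ← ENNReal.ofReal_mul] at h
  · exact h
  · rw [zeta_re hs]
    have h1 : (1 : ℝ) ≤ 2 ^ s := Real.one_le_rpow (by norm_num) (by linarith)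
    exact mul_nonneg (mul_nonneg (by norm_num) (by linarith)) (tsum_nonneg fun n => by positivity)

end Pool.Agent.Results.MP_efb919_an.PolarizationLimit
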